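import Pool.Agent.V11237.LP.PtInst

set_option autoImplicit false

/-!
# Almost prime sexy pairs between consecutive cubes (and other powers): their number and the laws of
their gaps
-/

namespace Pool.Agent.Results.MP_5628fe_nt.SexyLawsBetweenCubes

open Finset
open Pool.Agent.V11237.LP.Pt

/-- **Theorem.** Let `c = 1` or `c = 23`. If `n > 5` and `n ≡ c` modulo `30`, then none of the numbers
strictly between `n` and `n + 6` is prime. Let `a ≥ 2` (`a = 3` for cubes), `l₀`, `x₀` and `ε > 0`. There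
is `r₀` such that for all `r ≥ r₀` and ALL large `m` the following holds with `N = (m + 1) ^ a`. Call
`n ≡ c` modulo `30` good if neither `n` nor `n + 6` has a prime factor `p ≤ N ^ (1 / r)`; for `n < N` both
numbers then have at most `r` prime factors. For all `l` and `T` with `l ≤ l₀` or `T V ≤ x₀` the number of
the good `n` with `m ^ a < n < n + 6 < (m + 1) ^ a` and with fewer than `l` good integers in `[n - T, n)` is
`((m + 1) ^ a - m ^ a) V ∑_{j < l} e ^ (-T V) (T V) ^ j / j!` up to at most `ε ((m + 1) ^ a - m ^ a) V`,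
where `V > 0` is the product of `1 - 2 / p` over the primes `5 < p ≤ N ^ (1 / r)`, divided by `30`. (For
`l = 1` and `T = 0` this is the number of all the good pairs of the class between the two powers.) -/
theorem result (c : ℕ) (hc : c = 1 ∨ c = 23) (a : ℕ) (ha : 2 ≤ a) (l₀ : ℕ) (x₀ ε : ℝ) (hε : 0 < ε) :
    (∀ n : ℕ, 5 < n → n % 30 = c → ∀ i, 0 < i → i < 6 → ¬ (n + i).Prime) ∧
    ∃ r₀ : ℕ, 2 ≤ r₀ ∧ ∀ r : ℕ, r₀ ≤ r → ∃ m₀ : ℕ, ∀ m : ℕ, m₀ ≤ m →
      ((∀ n : ℕ, n < (m + 1) ^ a → Good 30 c ![0, 6] ((m + 1) ^ a) r n →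
          ∀ i, (n + ![0, 6] i).primeFactorsList.length ≤ r) ∧ 0 < V 5 30 2 ((m + 1) ^ a) r) ∧
      ∀ l T : ℕ, (l ≤ l₀ ∨ T * V 5 30 2 ((m + 1) ^ a) r ≤ x₀) →
        |(G 30 c ![0, 6] ((m + 1) ^ a) r l T (m ^ a) ((m + 1) ^ a) 6 : ℝ) -
          ((m + 1) ^ a - m ^ a) * V 5 30 2 ((m + 1) ^ a) r *
            ∑ j ∈ range l, Real.exp (-(T * V 5 30 2 ((m + 1) ^ a) r)) *
              (T * V 5 30 2 ((m + 1) ^ a) r) ^ j / j.factorial| ≤
        ε * (((m + 1) ^ a - m ^ a) * V 5 30 2 ((m + 1) ^ a) r) := by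
  refine ⟨?_, between (pat_sexy c hc) (by decide) 6 a ha l₀ x₀ ε hε⟩
  intro n hn hnc i hi0 hi6 hp
  have key : ∀ q : ℕ, q.Prime → q < 6 → q ∣ n + i → False := by
    intro q hq hq6 hd
    have := (Nat.prime_dvd_prime_iff_eq hq hp).1 hd
    omega
  interval_cases i
  · exact key 2 Nat.prime_two (by norm_num) (by rcases hc with rfl | rfl <;> omega)
  · rcases hc with rfl | rfl
    · exact key 3 Nat.prime_three (by norm_num) (by omega)
    · exact key 5 Nat.prime_five (by norm_num) (by omega)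
  · exact key 2 Nat.prime_two (by norm_num) (by rcases hc with rfl | rfl <;> omega)
  · rcases hc with rfl | rfl
    · exact key 5 Nat.prime_five (by norm_num) (by omega)
    · exact key 3 Nat.prime_three (by norm_num) (by omega)
  · exact key 2 Nat.prime_two (by norm_num) (by rcases hc with rfl | rfl <;> omega)

end Pool.Agent.Results.MP_5628fe_nt.SexyLawsBetweenCubes
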